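import Pool.Agent.P.MP_3d2265_gt.TC.Main

/-!
The telescope conjecture for module categories fails for a finite-dimensional symmetric algebra.
-/

open Pool.Agent.P.MP_3d2265_gt.TC

namespace Pool.Agent.Results.MP_3d2265_gt.KrauseSolberg

theorem result (k : Type) [Field k] : ∃ (A : Type) (_ : Ring A) (_ : Algebra k A),
    Module.Finite k A ∧ SymAlg k A ∧ Module.Injective A A ∧
    ∃ 𝒜 ℬ : ModuleCat.{0} A → Prop, CHCP 𝒜 ℬ ∧ (∀ X, Lim 𝒜 X → 𝒜 X) ∧ (∀ Y, Lim ℬ Y → ℬ Y) ∧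
      ∃ X, 𝒜 X ∧ ¬Lim (fun Y => 𝒜 Y ∧ Module.Finite A Y) X :=
  main k

end Pool.Agent.Results.MP_3d2265_gt.KrauseSolberg
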