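import Pool.Agent.P.MP_3d2265_gt.DT.Main

/-!
A smashing subcategory of the derived category of a finite-dimensional algebra that is not zero
and contains no nonzero compact object.
-/

open CategoryTheory Limits Pretriangulated Pool.Agent.P.MP_3d2265_gt.DT

universe w

namespace Pool.Agent.Results.MP_3d2265_gt.NoCompact

theorem result (k : Type) [Field k] : ∃ (A : Type) (_ : Ring A) (_ : Algebra k A)
    (M : ModuleCat.{0} A), Module.Finite k A ∧ Module.Finite A M ∧
    ∀ [HasDerivedCategory.{w} (ModuleCat.{0} A)],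
      HasCoproducts.{0} (DerivedCategory (ModuleCat.{0} A)) ∧
      ¬IsZero ((DerivedCategory.singleFunctor _ 0).obj M) ∧
      (∀ X, ∃ T ∈ distTriang (DerivedCategory (ModuleCat.{0} A)),
        T.obj₂ = X ∧ Acy M T.obj₁ ∧ Loc M T.obj₃) ∧
      (∀ (ι : Type) (Y : ι → DerivedCategory (ModuleCat.{0} A)) (c : Cofan Y),
        Nonempty (IsColimit c) → (∀ i, Loc M (Y i)) → Loc M c.pt) ∧
      ∀ C, Cpt C → Acy M C → IsZero C :=
  ⟨Al k, inferInstance, inferInstance, cy (JM k), inferInstance, inferInstance,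
    fun {_} => ⟨(q_CPL k).1, (q_NOC k).1, q_TOW k, (q_CPL k).2, (q_NOC k).2⟩⟩

end Pool.Agent.Results.MP_3d2265_gt.NoCompact
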