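import Pool.Agent.P.MP_3d2265_gt.Main

/-!
In a monogenic stable homotopy category, two smashing localisations that agree on a ring object
with sparse cells agree on every object whose periodic homotopy misses a residue class.
-/

open CategoryTheory Limits Pretriangulated MonoidalCategory Pool.Agent.P.MP_3d2265_gt

universe v u

namespace Pool.Agent.Results.MP_3d2265_gt.SparseGap

theorem result {C : Type u} [Category.{v} C] [Preadditive C] [HasZeroObject C] [HasShift C ℤ]
    [∀ n : ℤ, (shiftFunctor C n).Additive] [Pretriangulated C] [MonoidalCategory C]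
    [SymmetricCategory C] [MonoidalClosed C] [MonoidalPreadditive C] [HasCoproducts.{0} C]
    (hC : Stable C) (q : ℤ) (hq : 2 ≤ q) (E : C) [MonObj E] (B : C) (p : E ⟶ B)
    (d : B ⟶ (𝟙_ C)⟦(1 : ℤ)⟧) (hB : Triangle.mk MonObj.one p d ∈ distTriang C) (hs : Sparse q B)
    {ι : Type} (T K : ι → C) (hT : Smashing T) (hK : Smashing K)
    (hTK : ∀ A, Acyc T A → Acyc K A) (hE : TC T K E) (X : C)
    (hX : ∀ i, TC T K (T i) ∨
      ∃ V : C, (∀ A, IsZero (V ⊗ A) → IsZero (T i ⊗ A)) ∧ Gap q (V ⊗ X)) :
    TC T K X :=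
  main hC hq MonObj.one MonObj.mul (MonObj.mul_one E) p d hB hs hT hK hTK hE hX

end Pool.Agent.Results.MP_3d2265_gt.SparseGap
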